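import Pool.Agent.Run7.h254.GB.SecondBasis

/-!
# The values of `|g_{2n+1} - g_{2n-1}|` have positive lower density

Let `a(n) = g_{2n+1} - g_{2n-1}`, where `g_k = p_{k+1} - p_k`.  The question is whether every even number is a value
of `|a(n)|`.  A positive proportion of the even numbers are values, at every scale and already among the small `n`,
and every even number is a sum of a bounded number of values.

Proof.  By the starting theorem `GapsInMultiples` of MP_6336a7_nt a positive proportion of the vectors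
`(v_0, v_1, v_2, v_3)` up to `Y` are vectors of four successive gaps.  If the first of them has an index of the right
parity, then `|v_2 - v_0|` is a value, otherwise `|v_3 - v_1|` is one.  So if only `E` even numbers up to `Y` were
values, there would be at most `4 E (Y+1)^3` such vectors.  Then Schnirelmann's theorem.
-/

set_option autoImplicit false

namespace Pool.Agent.Results.MP_f006b0_nt.ValuesPositiveDensity

open Pool.Agent.Run7.h254.GB

/-- The size of the largest gaps known to occur between the primes up to `x`. -/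
noncomputable def record (x : ℝ) : ℝ :=
  Real.log x * (Real.log (Real.log x)) ^ 2 * Real.log (Real.log (Real.log (Real.log x))) /
    (Real.log (Real.log (Real.log x))) ^ 2

/-- `p k`: the prime number `p_k` of the page, where `p_1 = 2` (`k ≥ 1`). -/
noncomputable def p (k : ℕ) : ℤ := (Nat.nth Nat.Prime (k - 1) : ℤ)

/-- The number `a(n)` of the page. -/
noncomputable def a (n : ℕ) : ℤ := p (2 * n + 2) - p (2 * n + 1) - p (2 * n) + p (2 * n - 1)

theorem a_eq (m : ℕ) : a (m + 1) = gp (2 * m + 2) - gp (2 * m) := by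
  have e1 : 2 * (m + 1) + 2 - 1 = 2 * m + 3 := by omega
  have e2 : 2 * (m + 1) + 1 - 1 = 2 * m + 2 := by omega
  have e3 : 2 * (m + 1) - 1 = 2 * m + 1 := by omega
  have e4 : 2 * m + 1 - 1 = 2 * m := by omega
  have g0 : gp (2 * m) = (Nat.nth Nat.Prime (2 * m + 1) : ℤ) - Nat.nth Nat.Prime (2 * m) := rfl
  have g2 : gp (2 * m + 2) = (Nat.nth Nat.Prime (2 * m + 3) : ℤ) - Nat.nth Nat.Prime (2 * m + 2) := rfl
  unfold a p
  rw [g0, g2, e1, e2, e3, e4]
  ring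

theorem of_val {d : ℕ} {B : ℝ} (h : Val d B) : ∃ n, 1 ≤ n ∧ (p (2 * n + 2) : ℝ) ≤ B ∧ |a n| = d := by
  obtain ⟨m, h1, h2, h3⟩ := h
  refine ⟨m + 1, by omega, ?_, ?_⟩
  · have e1 : 2 * (m + 1) + 2 - 1 = 2 * m + 3 := by omega
    unfold p
    rw [e1]
    exact_mod_cast h2
  · rw [a_eq, ← h3]
    exact (Int.natCast_natAbs _).symm

/-- **A positive proportion of the even numbers are values, and the values form a basis.** -/
theorem result :
    (∃ c : ℝ, 0 < c ∧ ∃ N₀ : ℕ, ∀ N : ℕ, N₀ ≤ N → ∀ Y : ℝ, Real.log N ≤ Y → Y ≤ c * record N →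
      c * Y ≤ ({d : ℕ | Even d ∧ (d : ℝ) ≤ Y ∧
        ∃ n, 1 ≤ n ∧ p (2 * n + 2) ≤ N ∧ |a n| = d}.ncard : ℝ)) ∧
    (∃ c : ℝ, 0 < c ∧ ∀ Y : ℝ, 1 ≤ Y →
      c * Y ≤ ({d : ℕ | Even d ∧ (d : ℝ) ≤ Y ∧ ∃ n, 1 ≤ n ∧ |a n| = d}.ncard : ℝ)) ∧
    (∃ k : ℕ, ∀ t : ℕ, Even t → ∃ s : Multiset ℕ, s.card ≤ k ∧ s.sum = t ∧
      ∀ d ∈ s, Even d ∧ ∃ n, 1 ≤ n ∧ |a n| = d) := by
  have hfin : ∀ (Y : ℝ) (Q : ℕ → Prop), {d : ℕ | Even d ∧ (d : ℝ) ≤ Y ∧ Q d}.Finite := by
    intro Y Q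
    apply (Set.finite_Iic ⌊Y⌋₊).subset
    intro d hd
    exact Nat.le_floor hd.2.1
  refine ⟨?_, ?_, ?_⟩
  · obtain ⟨c, hc, N₀, h⟩ := second_nat
    refine ⟨c, hc, N₀, fun N hN Y h1 h2 => ?_⟩
    obtain ⟨E, hE1, hE2⟩ := h N hN Y h1 h2
    refine hE1.trans ?_
    have hsub : (E : Set ℕ) ⊆ {d : ℕ | Even d ∧ (d : ℝ) ≤ Y ∧
        ∃ n, 1 ≤ n ∧ p (2 * n + 2) ≤ N ∧ |a n| = d} := by
      intro d hd
      obtain ⟨e1, e2, e3⟩ := hE2 d hd
      obtain ⟨n, f1, f2, f3⟩ := of_val e3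
      exact ⟨e2, e1, n, f1, by exact_mod_cast f2, f3⟩
    have := Set.ncard_le_ncard hsub (hfin _ _)
    rw [Set.ncard_coe_finset] at this
    exact_mod_cast this
  · obtain ⟨c, B, hc, hB1, h⟩ := second_pos
    have hm : 0 < min c (1 / B) := lt_min hc (by positivity)
    refine ⟨min c (1 / B), hm, fun Y hY => ?_⟩
    rcases le_or_gt B Y with hBY | hBY
    · obtain ⟨E, hE1, hE2⟩ := h Y hBY
      have hsub : (E : Set ℕ) ⊆ {d : ℕ | Even d ∧ (d : ℝ) ≤ Y ∧ ∃ n, 1 ≤ n ∧ |a n| = d} := by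
        intro d hd
        obtain ⟨e1, e2, N, e3⟩ := hE2 d hd
        obtain ⟨n, f1, f2, f3⟩ := of_val e3
        exact ⟨e2, e1, n, f1, f3⟩
      have h1 := Set.ncard_le_ncard hsub (hfin _ _)
      rw [Set.ncard_coe_finset] at h1
      have h2 : (E.card : ℝ) ≤ ({d : ℕ | Even d ∧ (d : ℝ) ≤ Y ∧ ∃ n, 1 ≤ n ∧ |a n| = d}.ncard : ℝ) := by
        exact_mod_cast h1
      have h3 : min c (1 / B) * Y ≤ c * Y := mul_le_mul_of_nonneg_right (min_le_left _ _) (by linarith)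
      linarith
    · have hmem : 0 ∈ {d : ℕ | Even d ∧ (d : ℝ) ≤ Y ∧ ∃ n, 1 ≤ n ∧ |a n| = d} := by
        obtain ⟨n, f1, f2, f3⟩ := of_val val_zero
        exact ⟨⟨0, rfl⟩, by push_cast; linarith, n, f1, f3⟩
      have h1 : 0 < {d : ℕ | Even d ∧ (d : ℝ) ≤ Y ∧ ∃ n, 1 ≤ n ∧ |a n| = d}.ncard :=
        (Set.ncard_pos (hfin _ _)).2 ⟨0, hmem⟩
      have h2 : (1 : ℝ) ≤ ({d : ℕ | Even d ∧ (d : ℝ) ≤ Y ∧ ∃ n, 1 ≤ n ∧ |a n| = d}.ncard : ℝ) := by
        exact_mod_cast h1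
      have h3 : min c (1 / B) * Y ≤ 1 / B * Y := mul_le_mul_of_nonneg_right (min_le_right _ _) (by linarith)
      have h4 : 1 / B * Y ≤ 1 := by
        rw [div_mul_eq_mul_div, div_le_one (by linarith)]
        linarith
      linarith
  · obtain ⟨k, h⟩ := second_basis
    refine ⟨k, fun t ht => ?_⟩
    obtain ⟨s, h1, h2, h3⟩ := h t ht
    refine ⟨s, h1, h2, fun d hd => ?_⟩
    obtain ⟨e1, N, e2⟩ := h3 d hd
    obtain ⟨n, f1, f2, f3⟩ := of_val e2
    exact ⟨e1, n, f1, f3⟩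

end Pool.Agent.Results.MP_f006b0_nt.ValuesPositiveDensity
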